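import Mathlib
import Pool.Agent.Q183.OpenBall

/-!
# An embedding of the 4-ball in `S² × ℝ²` with open projection to `S²`
-/

namespace Pool.Agent.Results.MP_2fe121_gt.OpenProjection

open Q183.OpenBall Topology

/-- The closed unit ball of `ℝ⁴` is homeomorphic to the closed bidisc. -/
theorem exists_homeo :
    Nonempty (Metric.closedBall (0 : EuclideanSpace ℝ (Fin 4)) 1 ≃ₜ K) := by
  have hfr : Module.finrank ℝ (EuclideanSpace ℝ (Fin 4)) = Module.finrank ℝ (ℂ × ℂ) := by
    rw [finrank_euclideanSpace_fin, Module.finrank_prod, Complex.finrank_real_complex]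
  obtain ⟨L⟩ : Nonempty (EuclideanSpace ℝ (Fin 4) ≃L[ℝ] (ℂ × ℂ)) :=
    FiniteDimensional.nonempty_continuousLinearEquiv_of_finrank_eq hfr
  obtain ⟨s, hs⟩ : ∃ s : Set (ℂ × ℂ),
      s = L '' Metric.closedBall (0 : EuclideanSpace ℝ (Fin 4)) 1 := ⟨_, rfl⟩
  have hsc : Convex ℝ s := by
    rw [hs]
    exact (convex_closedBall _ _).linear_image L.toLinearMap
  have hscl : IsClosed s := by
    rw [hs]
    exact ((isCompact_closedBall _ _).image L.continuous).isClosed
  have hsb : Bornology.IsBounded s := by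
    rw [hs]
    exact ((isCompact_closedBall _ _).image L.continuous).isBounded
  have hsi : (interior s).Nonempty := by
    refine ⟨0, ?_⟩
    rw [mem_interior_iff_mem_nhds, hs]
    have h1 := L.toHomeomorph.isOpenMap.image_mem_nhds
      (Metric.closedBall_mem_nhds (0 : EuclideanSpace ℝ (Fin 4)) one_pos)
    simpa using h1
  obtain ⟨h, -, h2, -⟩ :=
    exists_homeomorph_image_interior_closure_frontier_eq_unitBall hsc hsi hsb
  rw [hscl.closure_eq] at h2
  have h3 : (Metric.closedBall (0 : ℂ × ℂ) 1) = {p : ℂ × ℂ | ‖p.1‖ ≤ 1 ∧ ‖p.2‖ ≤ 1} := by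
    ext p
    rw [mem_closedBall_zero_iff, Prod.norm_def]
    exact max_le_iff
  rw [h3] at h2
  have e1 : Metric.closedBall (0 : EuclideanSpace ℝ (Fin 4)) 1 ≃ₜ s :=
    (L.toHomeomorph.image _).trans (Homeomorph.setCongr (by rw [hs]; rfl))
  have e2 : s ≃ₜ K := (h.image s).trans (Homeomorph.setCongr h2)
  exact ⟨e1.trans e2⟩

/-- **Theorem.** There is an embedding `e` of the closed ball `D⁴` in `S² × ℝ²` such that the
composition of `e` with the projection to `S²` is an open map. -/
theorem result :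
    ∃ e : Metric.closedBall (0 : EuclideanSpace ℝ (Fin 4)) 1 →
        Metric.sphere (0 : EuclideanSpace ℝ (Fin 3)) 1 × EuclideanSpace ℝ (Fin 2),
      IsEmbedding e ∧ IsOpenMap (fun x => (e x).1) := by
  obtain ⟨H⟩ := exists_homeo
  obtain ⟨Φ⟩ : Nonempty (OnePoint ℂ ≃ₜ Metric.sphere (0 : EuclideanSpace ℝ (Fin 3)) 1) :=
    ⟨onePointEquivSphereOfFinrankEq (by rw [Complex.finrank_real_complex]; simp)⟩
  obtain ⟨Ψ⟩ : Nonempty (ℂ ≃L[ℝ] EuclideanSpace ℝ (Fin 2)) :=
    FiniteDimensional.nonempty_continuousLinearEquiv_of_finrank_eq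
      (by rw [Complex.finrank_real_complex, finrank_euclideanSpace_fin])
  have hcomp : CompactSpace (Metric.closedBall (0 : EuclideanSpace ℝ (Fin 4)) 1) :=
    isCompact_iff_compactSpace.1 (isCompact_closedBall _ _)
  refine ⟨fun x => (Φ (f (H x)), Ψ (H x).1.2), ?_, ?_⟩
  · refine Topology.IsClosedEmbedding.isEmbedding (Continuous.isClosedEmbedding ?_ ?_)
    · have h1 := continuous_f
      fun_prop
    · intro x y hxy
      rw [Prod.mk.injEq] at hxy
      exact H.injective (f_inj (Φ.injective hxy.1) (Ψ.injective hxy.2))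
  · exact Φ.isOpenMap.comp (isOpenMap_f.comp H.isOpenMap)

end Pool.Agent.Results.MP_2fe121_gt.OpenProjection
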